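import Mathlib

/-!
# Few symmetric periodic Reeb orbits

For every `n ≥ 3` there is a connected closed real contact manifold of dimension `2 n - 1` with
exactly two geometrically distinct symmetric periodic Reeb orbits.
-/

namespace Pool.Agent.Results.MP_8a71fe_gt.FewSymmetricOrbits

open scoped ContDiff

noncomputable section

/-- A closed real contact manifold `(Σ, α, ρ)` of dimension `2 n - 1`. The manifold `Σ` is given as
a compact regular level set `F⁻¹(0)` of a smooth map `F : E → G` between finite dimensional real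
vector spaces with `dim E = (2 n - 1) + dim G`; its tangent space at `x` is the kernel of the
derivative of `F` at `x`. The form `α` is the restriction to `Σ` of a smooth `1`-form on `E`, and
`ρ` is the restriction to `Σ` of a smooth map `E → E`. -/
structure RealContactManifold (n : ℕ) (E G : Type)
    [NormedAddCommGroup E] [NormedSpace ℝ E] [FiniteDimensional ℝ E]
    [NormedAddCommGroup G] [NormedSpace ℝ G] [FiniteDimensional ℝ G] where
  /-- the defining map of the level set -/
  F : E → G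
  F_smooth : ContDiff ℝ ∞ F
  F_compact : IsCompact {x | F x = 0}
  F_regular : ∀ x, F x = 0 → Function.Surjective (fderiv ℝ F x)
  F_dim : Module.finrank ℝ E = (2 * n - 1) + Module.finrank ℝ G
  /-- the ambient `1`-form whose restriction to the level set is the contact form -/
  α : E → E →L[ℝ] ℝ
  α_smooth : ContDiff ℝ ∞ α
  /-- `α` does not vanish on any tangent space of the level set -/
  α_ne_zero : ∀ x, F x = 0 → ∃ v, fderiv ℝ F x v = 0 ∧ α x v ≠ 0
  /-- contact condition: `dα` is nondegenerate on the kernel of `α` in each tangent space; here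
  `dα (u, v) = (D_u α) v - (D_v α) u` -/
  contact : ∀ x, F x = 0 → ∀ u, fderiv ℝ F x u = 0 → α x u = 0 →
    (∀ v, fderiv ℝ F x v = 0 → α x v = 0 → fderiv ℝ α x u v - fderiv ℝ α x v u = 0) → u = 0
  /-- the anti-contact involution -/
  ρ : E → E
  ρ_smooth : ContDiff ℝ ∞ ρ
  ρ_mem : ∀ x, F x = 0 → F (ρ x) = 0
  ρ_invol : ∀ x, F x = 0 → ρ (ρ x) = x
  /-- `ρ^* α = - α` on the level set -/
  ρ_anti : ∀ x, F x = 0 → ∀ v, fderiv ℝ F x v = 0 → α (ρ x) (fderiv ℝ ρ x v) = - α x v
  /-- the fixed point set of `ρ` is nonempty -/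
  ρ_fixed : ∃ x, F x = 0 ∧ ρ x = x

namespace RealContactManifold

variable {n : ℕ} {E G : Type}
    [NormedAddCommGroup E] [NormedSpace ℝ E] [FiniteDimensional ℝ E]
    [NormedAddCommGroup G] [NormedSpace ℝ G] [FiniteDimensional ℝ G]
    (M : RealContactManifold n E G)

/-- The underlying closed manifold `Σ`, as a subset of `E`. -/
def carrier : Set E := {x | M.F x = 0}

/-- The tangent space of `Σ` at `x`. -/
def tangent (x : E) : Set E := {v | fderiv ℝ M.F x v = 0}

/-- The exterior derivative of `α` at `x`. -/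
def dα (x u v : E) : ℝ := fderiv ℝ M.α x u v - fderiv ℝ M.α x v u

/-- `R` is the value at `x` of the Reeb vector field: it is tangent to `Σ`, `α (R) = 1` and
`dα (R, v) = 0` for every tangent vector `v`. -/
def IsReebAt (x R : E) : Prop :=
  R ∈ M.tangent x ∧ M.α x R = 1 ∧ ∀ v ∈ M.tangent x, M.dα x R v = 0

/-- `c : [0, T] → Σ`, `T > 0`, is a Reeb chord: an integral curve of the Reeb vector field with
both end points in the fixed point set of `ρ`. -/
structure IsReebChord (T : ℝ) (c : ℝ → E) : Prop where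
  pos : 0 < T
  mem : ∀ t ∈ Set.Icc 0 T, c t ∈ M.carrier
  integral : ∀ t ∈ Set.Icc 0 T, ∃ R, M.IsReebAt (c t) R ∧
    HasDerivWithinAt c R (Set.Icc 0 T) t
  start_fixed : M.ρ (c 0) = c 0
  end_fixed : M.ρ (c T) = c T

/-- The symmetric periodic Reeb orbit `[0, 2 T] → Σ` of a Reeb chord `c : [0, T] → Σ`. -/
noncomputable def double (T : ℝ) (c : ℝ → E) : ℝ → E := fun t =>
  if t ≤ T then c t else M.ρ (c (2 * T - t))

/-- The set of images in `Σ` of the symmetric periodic Reeb orbits; its cardinality is the number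
of geometrically distinct symmetric periodic Reeb orbits. -/
def symmetricOrbits : Set (Set E) :=
  {O | ∃ T c, M.IsReebChord T c ∧ O = M.double T c '' Set.Icc 0 (2 * T)}

end RealContactManifold

/-! ### The example -/

/-- The ambient space `ℂ × ℂ × ℂ ^ m`. -/
abbrev V (m : ℕ) : Type := ℂ × ℂ × (Fin m → ℂ)

variable {m : ℕ}

/-- an irrational number in `(0, 1)` -/
def s : ℝ := √2 / 2

lemma s_pos : 0 < s := by unfold s; positivity

lemma s_lt_one : s < 1 := by
  unfold s
  have : √2 < 2 := by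
    have h : √2 < √4 := Real.sqrt_lt_sqrt (by norm_num) (by norm_num)
    have h4 : √4 = 2 := by
      rw [show (4 : ℝ) = 2 ^ 2 by norm_num]; exact Real.sqrt_sq (by norm_num)
    linarith
  linarith

lemma s_irr : Irrational s := by
  unfold s
  exact_mod_cast Irrational.div_natCast irrational_sqrt_two (m := 2) (by norm_num)

/-- The quadric. -/
def quad (z : V m) : ℂ := z.1 * z.2.1 + ∑ j, z.2.2 j ^ 2

/-- real part of the hermitian product of complex numbers -/
def re2 (a b : ℂ) : ℝ := a.re * b.re + a.im * b.im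

/-- imaginary part of the hermitian product of complex numbers -/
def im2 (a b : ℂ) : ℝ := a.re * b.im - a.im * b.re

/-- weighted real part of hermitian product -/
def wre (z v : V m) : ℝ :=
  (1 + s) * re2 z.1 v.1 + (1 - s) * re2 z.2.1 v.2.1 + ∑ j, re2 (z.2.2 j) (v.2.2 j)

/-- The defining map. -/
def defF (z : V m) : ℂ × ℝ := (quad z, wre z z - 1)

/-- the standard Liouville form, as a bilinear map -/
def bilin (m : ℕ) : V m →ₗ[ℝ] V m →ₗ[ℝ] ℝ :=
  LinearMap.mk₂ ℝ (fun z v => im2 z.1 v.1 + im2 z.2.1 v.2.1 + ∑ j, im2 (z.2.2 j) (v.2.2 j))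
    (by
      intro a b c
      have : ∑ j, im2 ((a + b).2.2 j) (c.2.2 j) =
          ∑ j, im2 (a.2.2 j) (c.2.2 j) + ∑ j, im2 (b.2.2 j) (c.2.2 j) := by
        rw [← Finset.sum_add_distrib]
        refine Finset.sum_congr rfl fun j _ => ?_
        simp [im2]; ring
      rw [this]
      simp [im2]; ring)
    (by
      intro r a b
      have : ∑ j, im2 ((r • a).2.2 j) (b.2.2 j) = r * ∑ j, im2 (a.2.2 j) (b.2.2 j) := by
        rw [Finset.mul_sum]
        refine Finset.sum_congr rfl fun j _ => ?_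
        simp [im2]; ring
      rw [this]
      simp [im2]; ring)
    (by
      intro a b c
      have : ∑ j, im2 (a.2.2 j) ((b + c).2.2 j) =
          ∑ j, im2 (a.2.2 j) (b.2.2 j) + ∑ j, im2 (a.2.2 j) (c.2.2 j) := by
        rw [← Finset.sum_add_distrib]
        refine Finset.sum_congr rfl fun j _ => ?_
        simp [im2]; ring
      rw [this]
      simp [im2]; ring)
    (by
      intro r a b
      have : ∑ j, im2 (a.2.2 j) ((r • b).2.2 j) = r * ∑ j, im2 (a.2.2 j) (b.2.2 j) := by
        rw [Finset.mul_sum]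
        refine Finset.sum_congr rfl fun j _ => ?_
        simp [im2]; ring
      rw [this]
      simp [im2]; ring)

lemma bilin_apply (z v : V m) : bilin m z v =
    im2 z.1 v.1 + im2 z.2.1 v.2.1 + ∑ j, im2 (z.2.2 j) (v.2.2 j) := rfl

/-- the standard Liouville form -/
def liou (m : ℕ) : V m →L[ℝ] V m →L[ℝ] ℝ := (bilin m).toContinuousBilinearMap

lemma liou_apply (z v : V m) : liou m z v =
    im2 z.1 v.1 + im2 z.2.1 v.2.1 + ∑ j, im2 (z.2.2 j) (v.2.2 j) := rfl

lemma liou_antisymm (z v : V m) : liou m z v = - liou m v z := by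
  have : ∑ j, im2 (z.2.2 j) (v.2.2 j) = - ∑ j, im2 (v.2.2 j) (z.2.2 j) := by
    rw [← Finset.sum_neg_distrib]
    refine Finset.sum_congr rfl fun j _ => ?_
    simp [im2]; ring
  rw [liou_apply, liou_apply, this]
  simp [im2]; ring

/-- complex conjugation, as a linear map -/
def conjL (m : ℕ) : V m →ₗ[ℝ] V m where
  toFun z := (star z.1, star z.2.1, fun j => star (z.2.2 j))
  map_add' a b := by
    refine Prod.ext ?_ (Prod.ext ?_ ?_)
    · simp
    · simp
    · funext j; simp
  map_smul' r a := by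
    refine Prod.ext ?_ (Prod.ext ?_ ?_)
    · simp
    · simp
    · funext j; simp

/-- complex conjugation -/
def conjC (m : ℕ) : V m →L[ℝ] V m := LinearMap.toContinuousLinearMap (conjL m)

lemma conjC_apply (z : V m) : conjC m z = (star z.1, star z.2.1, fun j => star (z.2.2 j)) := rfl

/-- the differential of the quadric -/
def dquad (z v : V m) : ℂ := z.1 * v.2.1 + v.1 * z.2.1 + ∑ j, 2 * z.2.2 j * v.2.2 j

lemma quad_line (z v : V m) (t : ℝ) :
    quad (z + t • v) = quad z + t * dquad z v + t ^ 2 * quad v := by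
  have : ∑ j, (z + t • v).2.2 j ^ 2 = ∑ j, z.2.2 j ^ 2 + t * ∑ j, 2 * z.2.2 j * v.2.2 j +
      t ^ 2 * ∑ j, v.2.2 j ^ 2 := by
    rw [Finset.mul_sum, Finset.mul_sum, ← Finset.sum_add_distrib, ← Finset.sum_add_distrib]
    refine Finset.sum_congr rfl fun j _ => ?_
    simp; ring
  unfold quad dquad
  rw [this]
  simp; ring

lemma wre_line (z v : V m) (t : ℝ) :
    wre (z + t • v) (z + t • v) = wre z z + t * (2 * wre z v) + t ^ 2 * wre v v := by
  have : ∑ j, re2 ((z + t • v).2.2 j) ((z + t • v).2.2 j) =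
      ∑ j, re2 (z.2.2 j) (z.2.2 j) + t * (2 * ∑ j, re2 (z.2.2 j) (v.2.2 j)) +
      t ^ 2 * ∑ j, re2 (v.2.2 j) (v.2.2 j) := by
    rw [Finset.mul_sum, Finset.mul_sum, Finset.mul_sum, ← Finset.sum_add_distrib,
      ← Finset.sum_add_distrib]
    refine Finset.sum_congr rfl fun j _ => ?_
    simp [re2]; ring
  unfold wre
  rw [this]
  simp [re2]; ring

lemma contDiff_quad : ContDiff ℝ ∞ (quad : V m → ℂ) := by
  unfold quad
  have h1 : ContDiff ℝ ∞ (fun z : V m => z.1) := contDiff_fst
  have h2 : ContDiff ℝ ∞ (fun z : V m => z.2.1) := contDiff_fst.comp contDiff_snd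
  have h3 : ∀ j, ContDiff ℝ ∞ (fun z : V m => z.2.2 j) := fun j =>
    (contDiff_apply ℝ ℂ j).comp (contDiff_snd.comp contDiff_snd)
  exact (h1.mul h2).add (ContDiff.sum fun j _ => (h3 j).pow 2)

lemma contDiff_re2 {f g : V m → ℂ} (hf : ContDiff ℝ ∞ f) (hg : ContDiff ℝ ∞ g) :
    ContDiff ℝ ∞ (fun z => re2 (f z) (g z)) := by
  unfold re2
  have hre : ContDiff ℝ ∞ Complex.re := Complex.reCLM.contDiff
  have him : ContDiff ℝ ∞ Complex.im := Complex.imCLM.contDiff
  exact ((hre.comp hf).mul (hre.comp hg)).add ((him.comp hf).mul (him.comp hg))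

lemma contDiff_wre : ContDiff ℝ ∞ (fun z : V m => wre z z) := by
  unfold wre
  have h1 : ContDiff ℝ ∞ (fun z : V m => z.1) := contDiff_fst
  have h2 : ContDiff ℝ ∞ (fun z : V m => z.2.1) := contDiff_fst.comp contDiff_snd
  have h3 : ∀ j, ContDiff ℝ ∞ (fun z : V m => z.2.2 j) := fun j =>
    (contDiff_apply ℝ ℂ j).comp (contDiff_snd.comp contDiff_snd)
  exact ((contDiff_const.mul (contDiff_re2 h1 h1)).add
    (contDiff_const.mul (contDiff_re2 h2 h2))).add
    (ContDiff.sum fun j _ => contDiff_re2 (h3 j) (h3 j))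

lemma contDiff_defF : ContDiff ℝ ∞ (defF : V m → ℂ × ℝ) :=
  contDiff_quad.prodMk (contDiff_wre.sub contDiff_const)

lemma fderiv_defF (z v : V m) : fderiv ℝ defF z v = (dquad z v, 2 * wre z v) := by
  have hd : DifferentiableAt ℝ (defF : V m → ℂ × ℝ) z :=
    contDiff_defF.differentiable (by simp) z
  rw [← hd.lineDeriv_eq_fderiv]
  have key : (fun t : ℝ => defF (z + t • v)) =
      fun t : ℝ => (quad z + t * dquad z v + t ^ 2 * quad v,
        wre z z + t * (2 * wre z v) + t ^ 2 * wre v v - 1) := by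
    funext t
    rw [defF, quad_line, wre_line]
  unfold lineDeriv
  rw [key]
  have hA : HasDerivAt (fun t : ℝ => quad z + (t : ℂ) * dquad z v + (t : ℂ) ^ 2 * quad v)
      (dquad z v) 0 := by
    have h0 : HasDerivAt (fun t : ℝ => (t : ℂ)) 1 (0 : ℝ) := Complex.ofRealCLM.hasDerivAt
    have h1 := ((h0.mul_const (dquad z v)).const_add (quad z)).fun_add
      ((h0.fun_pow 2).mul_const (quad v))
    simpa using h1
  have hB : HasDerivAt (fun t : ℝ => wre z z + t * (2 * wre z v) + t ^ 2 * wre v v - 1)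
      (2 * wre z v) 0 := by
    have h0 : HasDerivAt (fun t : ℝ => t) 1 (0 : ℝ) := hasDerivAt_id _
    have h1 := (((h0.mul_const (2 * wre z v)).const_add (wre z z)).fun_add
      ((h0.fun_pow 2).mul_const (wre v v))).sub_const 1
    simpa using h1
  exact (hA.prodMk hB).deriv

/-- the Reeb vector field -/
def reeb (z : V m) : V m :=
  (Complex.I * ((1 + s : ℝ) : ℂ) * z.1, Complex.I * ((1 - s : ℝ) : ℂ) * z.2.1,
    fun j => Complex.I * z.2.2 j)

lemma dquad_reeb (z : V m) : dquad z (reeb z) = 2 * Complex.I * quad z := by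
  have : ∑ j, 2 * z.2.2 j * (reeb z).2.2 j = 2 * Complex.I * ∑ j, z.2.2 j ^ 2 := by
    rw [Finset.mul_sum]
    refine Finset.sum_congr rfl fun j _ => ?_
    simp [reeb]; ring
  unfold dquad quad
  rw [this]
  simp [reeb]; ring

lemma dquad_self (z : V m) : dquad z z = 2 * quad z := by
  have : ∑ j, 2 * z.2.2 j * z.2.2 j = 2 * ∑ j, z.2.2 j ^ 2 := by
    rw [Finset.mul_sum]
    refine Finset.sum_congr rfl fun j _ => ?_
    ring
  unfold dquad quad
  rw [this]
  ring

lemma wre_reeb (z : V m) : wre z (reeb z) = 0 := by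
  have : ∑ j, re2 (z.2.2 j) ((reeb z).2.2 j) = 0 := by
    refine Finset.sum_eq_zero fun j _ => ?_
    simp [reeb, re2]; ring
  unfold wre
  rw [this]
  simp [reeb, re2]; ring

lemma liou_reeb_right (z : V m) : liou m z (reeb z) = wre z z := by
  have : ∑ j, im2 (z.2.2 j) ((reeb z).2.2 j) = ∑ j, re2 (z.2.2 j) (z.2.2 j) := by
    refine Finset.sum_congr rfl fun j _ => ?_
    simp [reeb, re2, im2]
  rw [liou_apply, wre, this]
  simp [reeb, re2, im2]; ring

lemma liou_reeb_left (z v : V m) : liou m (reeb z) v = - wre z v := by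
  have : ∑ j, im2 ((reeb z).2.2 j) (v.2.2 j) = - ∑ j, re2 (z.2.2 j) (v.2.2 j) := by
    rw [← Finset.sum_neg_distrib]
    refine Finset.sum_congr rfl fun j _ => ?_
    simp [reeb, re2, im2]; ring
  rw [liou_apply, wre, this]
  simp [reeb, re2, im2]; ring

lemma liou_self (z : V m) : liou m z z = 0 := by
  have := liou_antisymm z z
  linarith

/-- squared euclidean norm -/
def nrm (z : V m) : ℝ := re2 z.1 z.1 + re2 z.2.1 z.2.1 + ∑ j, re2 (z.2.2 j) (z.2.2 j)

lemma re2_self_nonneg (a : ℂ) : 0 ≤ re2 a a := by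
  unfold re2; nlinarith [mul_self_nonneg a.re, mul_self_nonneg a.im]

lemma re2_self_eq_zero {a : ℂ} (h : re2 a a = 0) : a = 0 := by
  unfold re2 at h
  have h1 : a.re = 0 := by nlinarith [mul_self_nonneg a.re, mul_self_nonneg a.im]
  have h2 : a.im = 0 := by nlinarith [mul_self_nonneg a.re, mul_self_nonneg a.im]
  exact Complex.ext h1 h2

lemma re2_self (a : ℂ) : re2 a a = ‖a‖ ^ 2 := by
  rw [← Complex.normSq_eq_norm_sq, Complex.normSq_apply]; rfl

lemma nrm_eq_zero {z : V m} (h : nrm z = 0) : z = 0 := by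
  unfold nrm at h
  have h1 := re2_self_nonneg z.1
  have h2 := re2_self_nonneg z.2.1
  have h3 : 0 ≤ ∑ j, re2 (z.2.2 j) (z.2.2 j) := Finset.sum_nonneg fun j _ => re2_self_nonneg _
  have e1 : z.1 = 0 := re2_self_eq_zero (by linarith)
  have e2 : z.2.1 = 0 := re2_self_eq_zero (by linarith)
  have e3 : ∑ j, re2 (z.2.2 j) (z.2.2 j) = 0 := by linarith
  rw [Finset.sum_eq_zero_iff_of_nonneg fun j _ => re2_self_nonneg _] at e3
  refine Prod.ext e1 (Prod.ext e2 ?_)
  funext j
  exact re2_self_eq_zero (e3 j (Finset.mem_univ j))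

lemma liou_I (u : V m) : liou m u (Complex.I • u) = nrm u := by
  have : ∑ j, im2 (u.2.2 j) ((Complex.I • u).2.2 j) = ∑ j, re2 (u.2.2 j) (u.2.2 j) := by
    refine Finset.sum_congr rfl fun j _ => ?_
    simp [re2, im2]
  rw [liou_apply, nrm, this]
  simp [re2, im2]

lemma dquad_I (z u : V m) : dquad z (Complex.I • u) = Complex.I * dquad z u := by
  have : ∑ j, 2 * z.2.2 j * (Complex.I • u).2.2 j =
      Complex.I * ∑ j, 2 * z.2.2 j * u.2.2 j := by
    rw [Finset.mul_sum]
    refine Finset.sum_congr rfl fun j _ => ?_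
    simp; ring
  unfold dquad
  rw [this]
  simp; ring

lemma dquad_add (z u v : V m) : dquad z (u + v) = dquad z u + dquad z v := by
  have : ∑ j, 2 * z.2.2 j * (u + v).2.2 j =
      ∑ j, 2 * z.2.2 j * u.2.2 j + ∑ j, 2 * z.2.2 j * v.2.2 j := by
    rw [← Finset.sum_add_distrib]
    refine Finset.sum_congr rfl fun j _ => ?_
    simp; ring
  unfold dquad
  rw [this]
  simp; ring

lemma dquad_smul (z u : V m) (r : ℝ) : dquad z (r • u) = r * dquad z u := by
  have : ∑ j, 2 * z.2.2 j * (r • u).2.2 j = r * ∑ j, 2 * z.2.2 j * u.2.2 j := by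
    rw [Finset.mul_sum]
    refine Finset.sum_congr rfl fun j _ => ?_
    simp; ring
  unfold dquad
  rw [this]
  simp; ring

lemma wre_add (z u v : V m) : wre z (u + v) = wre z u + wre z v := by
  have : ∑ j, re2 (z.2.2 j) ((u + v).2.2 j) =
      ∑ j, re2 (z.2.2 j) (u.2.2 j) + ∑ j, re2 (z.2.2 j) (v.2.2 j) := by
    rw [← Finset.sum_add_distrib]
    refine Finset.sum_congr rfl fun j _ => ?_
    simp [re2]; ring
  unfold wre
  rw [this]
  simp [re2]; ring

lemma wre_smul (z u : V m) (r : ℝ) : wre z (r • u) = r * wre z u := by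
  have : ∑ j, re2 (z.2.2 j) ((r • u).2.2 j) = r * ∑ j, re2 (z.2.2 j) (u.2.2 j) := by
    rw [Finset.mul_sum]
    refine Finset.sum_congr rfl fun j _ => ?_
    simp [re2]; ring
  unfold wre
  rw [this]
  simp [re2]; ring

lemma defF_eq_zero {z : V m} (h : defF z = 0) : quad z = 0 ∧ wre z z = 1 := by
  have h1 := congrArg Prod.fst h
  have h2 := congrArg Prod.snd h
  simp only [defF, Prod.fst_zero, Prod.snd_zero] at h1 h2
  exact ⟨h1, by linarith⟩

lemma defF_of {z : V m} (h1 : quad z = 0) (h2 : wre z z = 1) : defF z = 0 := by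
  unfold defF
  rw [h1, h2]
  simp

lemma tangent_iff (z v : V m) : fderiv ℝ defF z v = 0 ↔ dquad z v = 0 ∧ wre z v = 0 := by
  rw [fderiv_defF]
  constructor
  · intro h
    have h1 := congrArg Prod.fst h
    have h2 := congrArg Prod.snd h
    simp only [Prod.fst_zero, Prod.snd_zero] at h1 h2
    exact ⟨h1, by linarith⟩
  · rintro ⟨h1, h2⟩
    rw [h1, h2]
    simp

lemma fderiv_liou (z : V m) : fderiv ℝ (fun x : V m => liou m x) z = liou m :=
  (liou m).fderiv

lemma regular_defF (z : V m) (hz : defF z = 0) : Function.Surjective (fderiv ℝ defF z) := by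
  obtain ⟨hq, hw⟩ := defF_eq_zero hz
  have hz0 : z ≠ 0 := by
    rintro rfl
    simp [wre, re2] at hw
  rintro ⟨c, r⟩
  set N : ℝ := re2 z.1 z.1 + re2 z.2.1 z.2.1 + 4 * ∑ j, re2 (z.2.2 j) (z.2.2 j) with hN
  have hNpos : N ≠ 0 := by
    intro h0
    apply hz0
    apply nrm_eq_zero
    have h1 := re2_self_nonneg z.1
    have h2 := re2_self_nonneg z.2.1
    have h3 : 0 ≤ ∑ j, re2 (z.2.2 j) (z.2.2 j) := Finset.sum_nonneg fun j _ => re2_self_nonneg _
    unfold nrm
    rw [hN] at h0
    linarith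
  set v0 : V m := (c / N * star z.2.1, c / N * star z.1, fun j => c / N * (2 * star (z.2.2 j)))
    with hv0
  have hmul : ∀ a : ℂ, a * star a = ((re2 a a : ℝ) : ℂ) := by
    intro a
    apply Complex.ext <;> simp [re2]
    ring
  have hd : dquad z v0 = c := by
    have h1 : ∑ j, 2 * z.2.2 j * v0.2.2 j =
        c / N * (4 * ∑ j, ((re2 (z.2.2 j) (z.2.2 j) : ℝ) : ℂ)) := by
      rw [Finset.mul_sum, Finset.mul_sum]
      refine Finset.sum_congr rfl fun j _ => ?_
      rw [← hmul]
      simp only [hv0]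
      ring
    have h2 : z.1 * v0.2.1 = c / N * ((re2 z.1 z.1 : ℝ) : ℂ) := by
      rw [← hmul]; simp only [hv0]; ring
    have h3 : v0.1 * z.2.1 = c / N * ((re2 z.2.1 z.2.1 : ℝ) : ℂ) := by
      rw [← hmul]; simp only [hv0]; ring
    unfold dquad
    rw [h1, h2, h3]
    have hN' : (N : ℂ) = ((re2 z.1 z.1 : ℝ) : ℂ) + ((re2 z.2.1 z.2.1 : ℝ) : ℂ) +
        4 * ∑ j, ((re2 (z.2.2 j) (z.2.2 j) : ℝ) : ℂ) := by
      rw [hN]; push_cast; ring
    have hNc : (N : ℂ) ≠ 0 := by exact_mod_cast hNpos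
    rw [← mul_add, ← mul_add, ← hN']
    field_simp
  refine ⟨v0 + ((r - 2 * wre z v0) / 2) • z, ?_⟩
  rw [fderiv_defF, dquad_add, dquad_smul, dquad_self, hq, hd, wre_add, wre_smul, hw]
  refine Prod.ext ?_ ?_
  · simp
  · simp only
    ring

lemma norm_le_two {z : V m} (hz : defF z = 0) : ‖z‖ ≤ 2 := by
  obtain ⟨-, hw⟩ := defF_eq_zero hz
  have hs0 := s_pos
  have hs1 := s_lt_one
  have hs2 : s ≤ 3 / 4 := by
    unfold s
    have : √2 ≤ 3 / 2 := by
      rw [Real.sqrt_le_left (by norm_num)]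
      norm_num
    linarith
  unfold wre at hw
  have h1 := re2_self_nonneg z.1
  have h2 := re2_self_nonneg z.2.1
  have h3 : 0 ≤ ∑ j, re2 (z.2.2 j) (z.2.2 j) := Finset.sum_nonneg fun j _ => re2_self_nonneg _
  have h1' : 0 ≤ (1 + s) * re2 z.1 z.1 := by positivity
  have h2' : 0 ≤ (1 - s) * re2 z.2.1 z.2.1 := mul_nonneg (by linarith) h2
  rw [norm_prod_le_iff, norm_prod_le_iff, pi_norm_le_iff_of_nonneg (by norm_num)]
  refine ⟨?_, ?_, ?_⟩
  · have : ‖z.1‖ ^ 2 ≤ 4 := by
      rw [← re2_self]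
      nlinarith
    nlinarith [norm_nonneg z.1]
  · have : ‖z.2.1‖ ^ 2 ≤ 4 := by
      rw [← re2_self]
      nlinarith
    nlinarith [norm_nonneg z.2.1]
  · intro j
    have hj : re2 (z.2.2 j) (z.2.2 j) ≤ ∑ j, re2 (z.2.2 j) (z.2.2 j) :=
      Finset.single_le_sum (f := fun j => re2 (z.2.2 j) (z.2.2 j))
        (fun j _ => re2_self_nonneg _) (Finset.mem_univ j)
    have : ‖z.2.2 j‖ ^ 2 ≤ 4 := by
      rw [← re2_self]
      linarith
    nlinarith [norm_nonneg (z.2.2 j)]

lemma compact_defF : IsCompact {z : V m | defF z = 0} := by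
  refine Metric.isCompact_of_isClosed_isBounded ?_ ?_
  · exact isClosed_singleton.preimage (f := (defF : V m → ℂ × ℝ)) contDiff_defF.continuous
  · refine (Metric.isBounded_closedBall (x := (0 : V m)) (r := 2)).subset ?_
    intro z hz
    rw [mem_closedBall_zero_iff]
    exact norm_le_two hz

lemma liou_lin (z a b c : V m) (r₁ r₂ : ℝ) :
    liou m z (a + (r₁ • b + r₂ • c)) = liou m z a + (r₁ * liou m z b + r₂ * liou m z c) := by
  rw [map_add, map_add, map_smul, map_smul]
  rfl

lemma contact_defF (z : V m) (hz : defF z = 0) (u : V m) (hu1 : dquad z u = 0)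
    (hu2 : wre z u = 0) (hu3 : liou m z u = 0)
    (h : ∀ v, dquad z v = 0 → wre z v = 0 → liou m z v = 0 → liou m u v = 0) : u = 0 := by
  obtain ⟨hq, hw⟩ := defF_eq_zero hz
  set v : V m := Complex.I • u + ((-(wre z (Complex.I • u))) • z +
    (-(liou m z (Complex.I • u))) • reeb z) with hv
  have h1 : dquad z v = 0 := by
    rw [hv, dquad_add, dquad_add, dquad_smul, dquad_smul, dquad_self, dquad_reeb, dquad_I, hu1, hq]
    simp
  have h2 : wre z v = 0 := by
    rw [hv, wre_add, wre_add, wre_smul, wre_smul, hw, wre_reeb]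
    ring
  have h3 : liou m z v = 0 := by
    rw [hv, liou_lin, liou_self, liou_reeb_right, hw]
    ring
  have h4 := h v h1 h2 h3
  rw [hv, liou_lin, liou_I, liou_antisymm u z, hu3,
    liou_antisymm u (reeb z), liou_reeb_left, hu2] at h4
  apply nrm_eq_zero
  simpa using h4

/-- base point -/
def pt0 (m : ℕ) : V m := (((1 / √(1 + s) : ℝ) : ℂ), 0, 0)

lemma quad_pt0 : quad (pt0 m) = 0 := by
  simp [quad, pt0]

lemma wre_pt0 : wre (pt0 m) (pt0 m) = 1 := by
  have h : 0 < 1 + s := by linarith [s_pos]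
  simp only [wre, pt0, re2, Complex.ofReal_re, Complex.ofReal_im, Complex.zero_re,
    Complex.zero_im, Pi.zero_apply, mul_zero, add_zero, Finset.sum_const_zero]
  rw [div_mul_div_comm, Real.mul_self_sqrt h.le]
  field_simp

lemma conjC_pt0 : conjC m (pt0 m) = pt0 m := by
  rw [conjC_apply]
  simp only [pt0]
  refine Prod.ext ?_ (Prod.ext ?_ ?_)
  · simp
  · simp
  · funext j; simp

lemma quad_conj (z : V m) : quad (conjC m z) = star (quad z) := by
  rw [conjC_apply]
  simp [quad]

lemma wre_conj (z v : V m) : wre (conjC m z) (conjC m v) = wre z v := by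
  rw [conjC_apply, conjC_apply]
  simp [wre, re2]

lemma liou_conj (z v : V m) : liou m (conjC m z) (conjC m v) = - liou m z v := by
  rw [conjC_apply, conjC_apply, liou_apply, liou_apply]
  have : ∑ j, im2 (star (z.2.2 j)) (star (v.2.2 j)) = - ∑ j, im2 (z.2.2 j) (v.2.2 j) := by
    rw [← Finset.sum_neg_distrib]
    refine Finset.sum_congr rfl fun j _ => ?_
    simp [im2]
    ring
  simp only [this]
  simp [im2]
  ring

lemma conj_conj (z : V m) : conjC m (conjC m z) = z := by
  rw [conjC_apply, conjC_apply]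
  simp

lemma finrank_V : Module.finrank ℝ (V m) = 2 * m + 4 := by
  have h1 : Module.finrank ℝ (Fin m → ℂ) = 2 * m := by
    rw [Module.finrank_pi_fintype]
    simp [Complex.finrank_real_complex, mul_comm]
  rw [Module.finrank_prod, Module.finrank_prod, h1, Complex.finrank_real_complex]
  ring

/-- The example in dimension `2 n - 1`: the intersection of the quadric
`z₀ z₁ + ∑ z_j ^ 2 = 0` in `ℂ ^ (n + 1)` with the irrational ellipsoid
`(1 + s) |z₀|² + (1 - s) |z₁|² + ∑ |z_j|² = 1`, with the standard Liouville form and complex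
conjugation. -/
def quadricExample (n : ℕ) (hn : 1 ≤ n) : RealContactManifold n (V (n - 1)) (ℂ × ℝ) where
  F := defF
  F_smooth := contDiff_defF
  F_compact := compact_defF
  F_regular := regular_defF
  F_dim := by
    rw [finrank_V, Module.finrank_prod, Complex.finrank_real_complex, Module.finrank_self]
    omega
  α := fun z => liou (n - 1) z
  α_smooth := (liou (n - 1)).contDiff
  α_ne_zero := by
    intro x hx
    obtain ⟨hq, hw⟩ := defF_eq_zero hx
    refine ⟨reeb x, ?_, ?_⟩
    · rw [tangent_iff, dquad_reeb, wre_reeb, hq]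
      simp
    · rw [liou_reeb_right, hw]
      exact one_ne_zero
  contact := by
    intro x hx u hu1 hu2 h
    rw [tangent_iff] at hu1
    refine contact_defF x hx u hu1.1 hu1.2 hu2 ?_
    intro v hv1 hv2 hv3
    have h5 := h v ((tangent_iff x v).2 ⟨hv1, hv2⟩) hv3
    rw [fderiv_liou, liou_antisymm v u] at h5
    linarith
  ρ := fun z => conjC (n - 1) z
  ρ_smooth := (conjC (n - 1)).contDiff
  ρ_mem := by
    intro x hx
    obtain ⟨hq, hw⟩ := defF_eq_zero hx
    apply defF_of
    · rw [quad_conj, hq, star_zero]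
    · rw [wre_conj, hw]
  ρ_invol := fun x _ => conj_conj x
  ρ_anti := by
    intro x hx v hv
    rw [(conjC (n - 1)).fderiv, liou_conj]
  ρ_fixed := ⟨pt0 (n - 1), defF_of quad_pt0 wre_pt0, conjC_pt0⟩

lemma isReebAt_iff {n : ℕ} (hn : 1 ≤ n) {x R : V (n - 1)} (hx : x ∈ (quadricExample n hn).carrier) :
    (quadricExample n hn).IsReebAt x R ↔ R = reeb x := by
  have hx' : defF x = 0 := hx
  obtain ⟨hq, hw⟩ := defF_eq_zero hx'
  have hdα : ∀ u v, (quadricExample n hn).dα x u v = 2 * liou (n - 1) u v := by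
    intro u v
    unfold RealContactManifold.dα
    change fderiv ℝ (fun x : V (n - 1) => liou (n - 1) x) x u v -
      fderiv ℝ (fun x : V (n - 1) => liou (n - 1) x) x v u = _
    rw [fderiv_liou, liou_antisymm v u]
    ring
  have htan : ∀ v, v ∈ (quadricExample n hn).tangent x ↔ dquad x v = 0 ∧ wre x v = 0 :=
    fun v => tangent_iff x v
  have hα : ∀ v, (quadricExample n hn).α x v = liou (n - 1) x v := fun v => rfl
  unfold RealContactManifold.IsReebAt
  constructor
  · rintro ⟨h1, h2, h3⟩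
    rw [htan] at h1
    rw [hα] at h2
    have : R + (-1 : ℝ) • reeb x = 0 := by
      refine contact_defF x hx' _ ?_ ?_ ?_ ?_
      · rw [dquad_add, dquad_smul, h1.1, dquad_reeb, hq]
        simp
      · rw [wre_add, wre_smul, h1.2, wre_reeb]
        simp
      · rw [map_add, map_smul, h2, liou_reeb_right, hw]
        simp
      · intro v hv1 hv2 hv3
        have h4 := h3 v ((htan v).2 ⟨hv1, hv2⟩)
        rw [hdα] at h4
        rw [liou_antisymm, map_add, map_smul, liou_antisymm v (reeb x), liou_antisymm v R,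
          liou_reeb_left, hv2]
        simp only [neg_zero, smul_zero, add_zero]
        linarith
    have h5 : R = R + (-1 : ℝ) • reeb x + reeb x := by
      simp
    rw [h5, this, zero_add]
  · rintro rfl
    refine ⟨?_, ?_, ?_⟩
    · rw [htan, dquad_reeb, wre_reeb, hq]
      simp
    · rw [hα, liou_reeb_right, hw]
    · intro v hv
      rw [htan] at hv
      rw [hdα, liou_reeb_left, hv.2]
      simp

/-- solutions of scalar linear equations -/
lemma ode_exp {κ : ℂ} {T : ℝ} {f : ℝ → ℂ}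
    (h : ∀ t ∈ Set.Icc 0 T, HasDerivWithinAt f (κ * f t) (Set.Icc 0 T) t) :
    ∀ t ∈ Set.Icc 0 T, f t = Complex.exp (κ * t) * f 0 := by
  have hg : ∀ t ∈ Set.Icc 0 T,
      HasDerivWithinAt (fun t : ℝ => Complex.exp (-κ * t) * f t) 0 (Set.Icc 0 T) t := by
    intro t ht
    have h0 : HasDerivAt (fun t : ℝ => (t : ℂ)) 1 t := Complex.ofRealCLM.hasDerivAt
    have h1 : HasDerivAt (fun t : ℝ => Complex.exp (-κ * t)) (Complex.exp (-κ * t) * (-κ * 1)) t :=
      (h0.const_mul (-κ)).cexp
    have h2 := (h1.hasDerivWithinAt (s := Set.Icc 0 T)).fun_mul (h t ht)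
    refine h2.congr_deriv ?_
    ring
  intro t ht
  have hc := constant_of_derivWithin_zero (f := fun t : ℝ => Complex.exp (-κ * t) * f t)
    (a := 0) (b := T) (fun x hx => (hg x hx).differentiableWithinAt) (by
      intro x hx
      have hT : (0 : ℝ) < T := lt_of_le_of_lt hx.1 hx.2
      exact (hg x ⟨hx.1, hx.2.le⟩).derivWithin (uniqueDiffOn_Icc hT x ⟨hx.1, hx.2.le⟩)) t ht
  simp only [Complex.ofReal_zero, mul_zero, Complex.exp_zero, one_mul] at hc
  rw [← hc, ← mul_assoc, ← Complex.exp_add]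
  simp

/-- the Reeb flow -/
def flow (t : ℝ) (z : V m) : V m :=
  (Complex.exp (Complex.I * ((1 + s : ℝ) : ℂ) * t) * z.1,
    Complex.exp (Complex.I * ((1 - s : ℝ) : ℂ) * t) * z.2.1,
    fun j => Complex.exp (Complex.I * t) * z.2.2 j)

lemma flow_zero (z : V m) : flow 0 z = z := by
  simp [flow]

lemma flow_add (a b : ℝ) (z : V m) : flow (a + b) z = flow a (flow b z) := by
  unfold flow
  refine Prod.ext ?_ (Prod.ext ?_ ?_)
  · simp only
    rw [← mul_assoc, ← Complex.exp_add]
    congr 2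
    push_cast
    ring
  · simp only
    rw [← mul_assoc, ← Complex.exp_add]
    congr 2
    push_cast
    ring
  · funext j
    simp only
    rw [← mul_assoc, ← Complex.exp_add]
    congr 2
    push_cast
    ring

lemma star_exp (w t : ℝ) : star (Complex.exp (Complex.I * (w : ℂ) * t)) =
    Complex.exp (Complex.I * (w : ℂ) * ((-t : ℝ) : ℂ)) := by
  have : star (Complex.exp (Complex.I * (w : ℂ) * t)) =
      (starRingEnd ℂ) (Complex.exp (Complex.I * (w : ℂ) * t)) := rfl
  rw [this, ← Complex.exp_conj]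
  congr 1
  simp

lemma star_exp' (t : ℝ) : star (Complex.exp (Complex.I * t)) =
    Complex.exp (Complex.I * ((-t : ℝ) : ℂ)) := by
  have := star_exp 1 t
  simpa using this

lemma conj_flow (t : ℝ) (z : V m) : conjC m (flow t z) = flow (-t) (conjC m z) := by
  rw [conjC_apply, conjC_apply]
  unfold flow
  refine Prod.ext ?_ (Prod.ext ?_ ?_)
  · simp only [star_mul']
    rw [star_exp]
  · simp only [star_mul']
    rw [star_exp]
  · funext j
    simp only [star_mul']
    rw [star_exp']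

lemma hasDerivAt_exp_mul (κ x : ℂ) (t : ℝ) :
    HasDerivAt (fun t : ℝ => Complex.exp (κ * t) * x) (κ * (Complex.exp (κ * t) * x)) t := by
  have h0 : HasDerivAt (fun t : ℝ => (t : ℂ)) 1 t := Complex.ofRealCLM.hasDerivAt
  have h1 : HasDerivAt (fun t : ℝ => Complex.exp (κ * t)) (Complex.exp (κ * t) * (κ * 1)) t :=
    (h0.const_mul κ).cexp
  refine (h1.mul_const x).congr_deriv ?_
  ring

lemma hasDerivAt_flow (t : ℝ) (z : V m) :
    HasDerivAt (fun t => flow t z) (reeb (flow t z)) t := by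
  unfold flow reeb
  refine HasDerivAt.prodMk (hasDerivAt_exp_mul _ _ _) (HasDerivAt.prodMk
    (hasDerivAt_exp_mul _ _ _) ?_)
  rw [hasDerivAt_pi]
  intro j
  exact hasDerivAt_exp_mul _ _ _

lemma exp_ne (κ : ℂ) (t : ℝ) : Complex.exp (κ * t) ≠ 0 := Complex.exp_ne_zero _

lemma quad_flow (t : ℝ) (z : V m) : quad (flow t z) = Complex.exp (2 * Complex.I * t) * quad z := by
  have h1 : Complex.exp (Complex.I * ((1 + s : ℝ) : ℂ) * t) *
      Complex.exp (Complex.I * ((1 - s : ℝ) : ℂ) * t) = Complex.exp (2 * Complex.I * t) := by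
    rw [← Complex.exp_add]
    congr 1
    push_cast
    ring
  have h2 : Complex.exp (Complex.I * t) ^ 2 = Complex.exp (2 * Complex.I * t) := by
    rw [← Complex.exp_nat_mul]
    congr 1
    push_cast
    ring
  unfold quad flow
  simp only [mul_pow]
  rw [h2, ← Finset.mul_sum, ← h1]
  ring

lemma re2_exp (w t : ℝ) (a : ℂ) : re2 (Complex.exp (Complex.I * (w : ℂ) * t) * a)
    (Complex.exp (Complex.I * (w : ℂ) * t) * a) = re2 a a := by
  rw [re2_self, re2_self, norm_mul]
  have : ‖Complex.exp (Complex.I * (w : ℂ) * t)‖ = 1 := by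
    rw [show Complex.I * (w : ℂ) * t = ((w * t : ℝ) : ℂ) * Complex.I by push_cast; ring]
    exact Complex.norm_exp_ofReal_mul_I _
  rw [this, one_mul]

lemma wre_flow (t : ℝ) (z : V m) : wre (flow t z) (flow t z) = wre z z := by
  unfold wre flow
  simp only [re2_exp]
  congr 1
  refine Finset.sum_congr rfl fun j _ => ?_
  have := re2_exp 1 t (z.2.2 j)
  simpa using this

lemma defF_flow {z : V m} (hz : defF z = 0) (t : ℝ) : defF (flow t z) = 0 := by
  obtain ⟨hq, hw⟩ := defF_eq_zero hz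
  refine defF_of ?_ ?_
  · rw [quad_flow, hq, mul_zero]
  · rw [wre_flow, hw]

section chords

variable {n : ℕ} (hn : 1 ≤ n)

lemma chord_eq {T : ℝ} {c : ℝ → V (n - 1)} (hc : (quadricExample n hn).IsReebChord T c) :
    ∀ t ∈ Set.Icc 0 T, c t = flow t (c 0) := by
  have hd : ∀ t ∈ Set.Icc 0 T, HasDerivWithinAt c (reeb (c t)) (Set.Icc 0 T) t := by
    intro t ht
    obtain ⟨R, hR, hR'⟩ := hc.integral t ht
    rw [isReebAt_iff hn (hc.mem t ht)] at hR
    rwa [hR] at hR'
  have h1 : ∀ t ∈ Set.Icc 0 T, (c t).1 =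
      Complex.exp (Complex.I * ((1 + s : ℝ) : ℂ) * t) * (c 0).1 := by
    refine ode_exp (f := fun t => (c t).1) fun t ht => ?_
    exact (ContinuousLinearMap.fst ℝ ℂ (ℂ × (Fin (n - 1) → ℂ))).hasFDerivAt.comp_hasDerivWithinAt
      t (hd t ht)
  have hd2 : ∀ t ∈ Set.Icc 0 T, HasDerivWithinAt (fun t => (c t).2) (reeb (c t)).2
      (Set.Icc 0 T) t := fun t ht =>
    (ContinuousLinearMap.snd ℝ ℂ (ℂ × (Fin (n - 1) → ℂ))).hasFDerivAt.comp_hasDerivWithinAt
      t (hd t ht)
  have h2 : ∀ t ∈ Set.Icc 0 T, (c t).2.1 =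
      Complex.exp (Complex.I * ((1 - s : ℝ) : ℂ) * t) * (c 0).2.1 := by
    refine ode_exp (f := fun t => (c t).2.1) fun t ht => ?_
    exact (ContinuousLinearMap.fst ℝ ℂ (Fin (n - 1) → ℂ)).hasFDerivAt.comp_hasDerivWithinAt
      t (hd2 t ht)
  have hd3 : ∀ t ∈ Set.Icc 0 T, HasDerivWithinAt (fun t => (c t).2.2) (reeb (c t)).2.2
      (Set.Icc 0 T) t := fun t ht =>
    (ContinuousLinearMap.snd ℝ ℂ (Fin (n - 1) → ℂ)).hasFDerivAt.comp_hasDerivWithinAt
      t (hd2 t ht)
  have h3 : ∀ j, ∀ t ∈ Set.Icc 0 T, (c t).2.2 j =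
      Complex.exp (Complex.I * t) * (c 0).2.2 j := by
    intro j
    refine ode_exp (f := fun t => (c t).2.2 j) fun t ht => ?_
    exact (hasDerivWithinAt_pi.1 (hd3 t ht)) j
  intro t ht
  refine Prod.ext (h1 t ht) (Prod.ext (h2 t ht) ?_)
  funext j
  exact h3 j t ht

lemma chord_flow_T {T : ℝ} {c : ℝ → V (n - 1)} (hc : (quadricExample n hn).IsReebChord T c) :
    flow (-T) (c 0) = flow T (c 0) := by
  have h0 : conjC (n - 1) (c 0) = c 0 := hc.start_fixed
  have hT : conjC (n - 1) (c T) = c T := hc.end_fixed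
  have hcT := chord_eq hn hc T ⟨hc.pos.le, le_refl T⟩
  rw [hcT, conj_flow, h0] at hT
  exact hT

lemma double_eq {T : ℝ} {c : ℝ → V (n - 1)} (hc : (quadricExample n hn).IsReebChord T c) :
    ∀ t ∈ Set.Icc 0 (2 * T), (quadricExample n hn).double T c t = flow t (c 0) := by
  intro t ht
  unfold RealContactManifold.double
  split_ifs with h
  · exact chord_eq hn hc t ⟨ht.1, h⟩
  · push Not at h
    have h0 : conjC (n - 1) (c 0) = c 0 := hc.start_fixed
    have h1 : c (2 * T - t) = flow (2 * T - t) (c 0) :=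
      chord_eq hn hc _ ⟨by linarith [ht.2], by linarith⟩
    change conjC (n - 1) (c (2 * T - t)) = _
    rw [h1, conj_flow, h0]
    have h2 : -(2 * T - t) = (t - T) + (-T) := by ring
    rw [h2, flow_add, chord_flow_T hn hc, ← flow_add]
    congr 1
    ring

/-- the first closed orbit -/
def C₀ (m : ℕ) : Set (V m) := {z | z.2 = 0 ∧ (1 + s) * ‖z.1‖ ^ 2 = 1}

/-- the second closed orbit -/
def C₁ (m : ℕ) : Set (V m) := {z | z.1 = 0 ∧ z.2.2 = 0 ∧ (1 - s) * ‖z.2.1‖ ^ 2 = 1}

lemma circle_param {w T : ℝ} (hw : 0 < w) (hT : 2 * Real.pi ≤ w * (2 * T)) {x p : ℂ}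
    (hx : x ≠ 0) (h : ‖p‖ = ‖x‖) :
    ∃ t ∈ Set.Icc 0 (2 * T), Complex.exp (Complex.I * (w : ℂ) * t) * x = p := by
  have hxn : ‖x‖ ≠ 0 := norm_ne_zero_iff.2 hx
  have hq : ‖p / x‖ = 1 := by rw [norm_div, h, div_self hxn]
  have hq' : Complex.exp ((Complex.arg (p / x) : ℂ) * Complex.I) = p / x := by
    have := Complex.norm_mul_exp_arg_mul_I (p / x)
    rw [hq] at this
    simpa using this
  have hwc : (w : ℂ) ≠ 0 := by exact_mod_cast hw.ne'
  by_cases h0 : 0 ≤ Complex.arg (p / x)
  · refine ⟨Complex.arg (p / x) / w, ⟨by positivity, ?_⟩, ?_⟩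
    · rw [div_le_iff₀ hw]
      have := Complex.arg_le_pi (p / x)
      nlinarith [Real.pi_pos]
    · have : Complex.I * (w : ℂ) * ((Complex.arg (p / x) / w : ℝ) : ℂ) =
          (Complex.arg (p / x) : ℂ) * Complex.I := by
        push_cast
        field_simp
      rw [this, hq', div_mul_cancel₀ _ hx]
  · push Not at h0
    refine ⟨(Complex.arg (p / x) + 2 * Real.pi) / w, ⟨?_, ?_⟩, ?_⟩
    · have := Complex.neg_pi_lt_arg (p / x)
      have h2 : 0 ≤ Complex.arg (p / x) + 2 * Real.pi := by linarith [Real.pi_pos]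
      positivity
    · rw [div_le_iff₀ hw]
      nlinarith [Real.pi_pos]
    · have : Complex.I * (w : ℂ) * (((Complex.arg (p / x) + 2 * Real.pi) / w : ℝ) : ℂ) =
          (Complex.arg (p / x) : ℂ) * Complex.I + 2 * Real.pi * Complex.I := by
        push_cast
        field_simp
      rw [this, Complex.exp_add, Complex.exp_two_pi_mul_I, mul_one, hq', div_mul_cancel₀ _ hx]

lemma exists_int {w T : ℝ} {x : ℂ} (hx : x ≠ 0)
    (h : Complex.exp (Complex.I * (w : ℂ) * ((-T : ℝ) : ℂ)) * x =
      Complex.exp (Complex.I * (w : ℂ) * T) * x) : ∃ k : ℤ, w * T = k * Real.pi := by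
  have h1 := mul_right_cancel₀ hx h
  rw [Complex.exp_eq_exp_iff_exists_int] at h1
  obtain ⟨k, hk⟩ := h1
  refine ⟨-k, ?_⟩
  have h2 := congrArg Complex.im hk
  simp at h2
  push_cast
  linarith

lemma one_add_s_pos : 0 < 1 + s := by linarith [s_pos]

lemma one_sub_s_pos : 0 < 1 - s := by linarith [s_lt_one]

lemma norm_exp_one (w t : ℝ) : ‖Complex.exp (Complex.I * (w : ℂ) * t)‖ = 1 := by
  rw [show Complex.I * (w : ℂ) * t = ((w * t : ℝ) : ℂ) * Complex.I by push_cast; ring]
  exact Complex.norm_exp_ofReal_mul_I _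

lemma image_C₀ {m : ℕ} {T : ℝ} {z : V m} (hz : z ∈ C₀ m)
    (hT : 2 * Real.pi ≤ (1 + s) * (2 * T)) :
    (fun t => flow t z) '' Set.Icc 0 (2 * T) = C₀ m := by
  obtain ⟨hz2, hz1⟩ := hz
  have hw := one_add_s_pos
  have hz0 : z.1 ≠ 0 := by
    intro h
    rw [h] at hz1
    simp at hz1
  have e1 : z.2.1 = 0 := by rw [hz2]; rfl
  have e2 : z.2.2 = 0 := by rw [hz2]; rfl
  apply Set.Subset.antisymm
  · rintro _ ⟨t, -, rfl⟩
    refine ⟨?_, ?_⟩
    · unfold flow
      refine Prod.ext ?_ ?_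
      · simp [e1]
      · funext j
        simp [e2]
    · simp only [flow]
      rw [norm_mul, norm_exp_one, one_mul, hz1]
  · rintro p ⟨hp2, hp1⟩
    have hn : ‖p.1‖ = ‖z.1‖ := by
      have : ‖p.1‖ ^ 2 = ‖z.1‖ ^ 2 := by
        have h3 : (1 + s) * ‖p.1‖ ^ 2 = (1 + s) * ‖z.1‖ ^ 2 := by rw [hp1, hz1]
        exact mul_left_cancel₀ hw.ne' h3
      exact (pow_left_inj₀ (norm_nonneg _) (norm_nonneg _) two_ne_zero).1 this
    obtain ⟨t, ht, hpt⟩ := circle_param hw hT hz0 hn
    refine ⟨t, ht, ?_⟩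
    refine Prod.ext hpt ?_
    rw [hp2]
    refine Prod.ext ?_ ?_
    · simp [flow, e1]
    · funext j
      simp [flow, e2]

lemma image_C₁ {m : ℕ} {T : ℝ} {z : V m} (hz : z ∈ C₁ m)
    (hT : 2 * Real.pi ≤ (1 - s) * (2 * T)) :
    (fun t => flow t z) '' Set.Icc 0 (2 * T) = C₁ m := by
  obtain ⟨hz2, hz3, hz1⟩ := hz
  have hw := one_sub_s_pos
  have hz0 : z.2.1 ≠ 0 := by
    intro h
    rw [h] at hz1
    simp at hz1
  apply Set.Subset.antisymm
  · rintro _ ⟨t, -, rfl⟩
    refine ⟨?_, ?_, ?_⟩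
    · simp [flow, hz2]
    · funext j
      simp [flow, hz3]
    · simp only [flow]
      rw [norm_mul, norm_exp_one, one_mul, hz1]
  · rintro p ⟨hp2, hp3, hp1⟩
    have hn : ‖p.2.1‖ = ‖z.2.1‖ := by
      have : ‖p.2.1‖ ^ 2 = ‖z.2.1‖ ^ 2 := by
        have h3 : (1 - s) * ‖p.2.1‖ ^ 2 = (1 - s) * ‖z.2.1‖ ^ 2 := by rw [hp1, hz1]
        exact mul_left_cancel₀ hw.ne' h3
      exact (pow_left_inj₀ (norm_nonneg _) (norm_nonneg _) two_ne_zero).1 this
    obtain ⟨t, ht, hpt⟩ := circle_param hw hT hz0 hn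
    refine ⟨t, ht, ?_⟩
    refine Prod.ext ?_ (Prod.ext hpt ?_)
    · simp [flow, hz2, hp2]
    · funext j
      simp [flow, hz3, hp3]

lemma real_of_star {x : ℂ} (h : star x = x) : x.im = 0 := by
  have := congrArg Complex.im h
  simp at this
  linarith

lemma two_pi_le {w T : ℝ} (hw : 0 < w) (hT : 0 < T) (h : ∃ k : ℤ, w * T = k * Real.pi) :
    2 * Real.pi ≤ w * (2 * T) := by
  obtain ⟨k, hk⟩ := h
  have h1 : 0 < w * T := mul_pos hw hT
  rw [hk] at h1
  have h2 : (0 : ℝ) < k := by
    by_contra h3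
    push Not at h3
    nlinarith [Real.pi_pos]
  have h3 : 1 ≤ k := by exact_mod_cast h2
  have h4 : (1 : ℝ) ≤ k := by exact_mod_cast h3
  nlinarith [Real.pi_pos]

lemma mem_pair {T : ℝ} {c : ℝ → V (n - 1)} (hc : (quadricExample n hn).IsReebChord T c) :
    (quadricExample n hn).double T c '' Set.Icc 0 (2 * T) = C₀ (n - 1) ∨
    (quadricExample n hn).double T c '' Set.Icc 0 (2 * T) = C₁ (n - 1) := by
  have himg : (quadricExample n hn).double T c '' Set.Icc 0 (2 * T) =
      (fun t => flow t (c 0)) '' Set.Icc 0 (2 * T) := Set.image_congr (double_eq hn hc)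
  rw [himg]
  set z := c 0 with hz
  have hz0 : conjC (n - 1) z = z := hc.start_fixed
  have hmem : defF z = 0 := hc.mem 0 ⟨le_refl 0, hc.pos.le⟩
  obtain ⟨hq, hw⟩ := defF_eq_zero hmem
  have hfl := chord_flow_T hn hc
  rw [← hz] at hfl
  have r1 : z.1.im = 0 := real_of_star (congrArg (fun z => z.1) hz0)
  have r2 : z.2.1.im = 0 := real_of_star (congrArg (fun z => z.2.1) hz0)
  have r3 : ∀ j, (z.2.2 j).im = 0 := fun j =>
    real_of_star (congrArg (fun z => z.2.2 j) hz0)
  have k1 : z.1 ≠ 0 → ∃ k : ℤ, (1 + s) * T = k * Real.pi := fun h =>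
    exists_int h (congrArg (fun z => z.1) hfl)
  have k2 : z.2.1 ≠ 0 → ∃ k : ℤ, (1 - s) * T = k * Real.pi := fun h =>
    exists_int h (congrArg (fun z => z.2.1) hfl)
  have hprod : z.1 * z.2.1 = 0 := by
    by_contra hne
    obtain ⟨k, hk⟩ := k1 (left_ne_zero_of_mul hne)
    obtain ⟨l, hl⟩ := k2 (right_ne_zero_of_mul hne)
    have hT := hc.pos
    have h1 : (0 : ℝ) < (k + l : ℝ) * Real.pi := by
      have : (k + l : ℝ) * Real.pi = 2 * T := by
        rw [add_mul, ← hk, ← hl]; ring
      rw [this]; linarith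
    have h2 : (0 : ℝ) < (k + l : ℝ) := by
      by_contra h3
      push Not at h3
      nlinarith [Real.pi_pos]
    have h3 : s * (k + l : ℝ) = (k - l : ℝ) := by
      have h4 : (s * (k + l : ℝ)) * Real.pi = (k - l : ℝ) * Real.pi := by
        linear_combination -s * hk - s * hl + hk - hl
      exact mul_right_cancel₀ Real.pi_ne_zero h4
    have h4 : s = (k - l : ℝ) / (k + l : ℝ) := by
      rw [eq_div_iff h2.ne', h3]
    apply s_irr
    refine ⟨((k - l : ℤ) : ℚ) / ((k + l : ℤ) : ℚ), ?_⟩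
    rw [h4]
    push_cast
    rfl
  have hsum : ∑ j, z.2.2 j ^ 2 = 0 := by
    have h1 := hq
    unfold quad at h1
    rw [hprod, zero_add] at h1
    exact h1
  have hz22 : z.2.2 = 0 := by
    have h1 : ∑ j, re2 (z.2.2 j) (z.2.2 j) = 0 := by
      have h2 := congrArg Complex.re hsum
      rw [Complex.re_sum] at h2
      rw [Complex.zero_re] at h2
      rw [← h2]
      refine Finset.sum_congr rfl fun j _ => ?_
      rw [pow_two, Complex.mul_re, re2, r3 j]
      ring
    rw [Finset.sum_eq_zero_iff_of_nonneg fun j _ => re2_self_nonneg _] at h1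
    funext j
    exact re2_self_eq_zero (h1 j (Finset.mem_univ j))
  unfold wre at hw
  rw [hz22] at hw
  simp only [Pi.zero_apply, re2, Complex.zero_re, Complex.zero_im, mul_zero, add_zero,
    Finset.sum_const_zero, r1, r2] at hw
  have n1 : ‖z.1‖ ^ 2 = z.1.re * z.1.re := by
    rw [← re2_self, re2, r1]; ring
  have n2 : ‖z.2.1‖ ^ 2 = z.2.1.re * z.2.1.re := by
    rw [← re2_self, re2, r2]; ring
  rcases mul_eq_zero.1 hprod with h | h
  · right
    have hmem1 : z ∈ C₁ (n - 1) := by
      refine ⟨h, hz22, ?_⟩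
      have h0 : z.1.re = 0 := by rw [h]; rfl
      rw [h0] at hw
      rw [n2]
      linarith
    have hne : z.2.1 ≠ 0 := by
      intro h0
      have := hmem1.2.2
      rw [h0] at this
      simp at this
    exact image_C₁ hmem1 (two_pi_le one_sub_s_pos hc.pos (k2 hne))
  · left
    have hmem1 : z ∈ C₀ (n - 1) := by
      refine ⟨Prod.ext h hz22, ?_⟩
      have h0 : z.2.1.re = 0 := by rw [h]; rfl
      rw [h0] at hw
      rw [n1]
      linarith
    have hne : z.1 ≠ 0 := by
      intro h0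
      have := hmem1.2
      rw [h0] at this
      simp at this
    exact image_C₀ hmem1 (two_pi_le one_add_s_pos hc.pos (k1 hne))

/-- second base point -/
def pt1 (m : ℕ) : V m := (0, ((1 / √(1 - s) : ℝ) : ℂ), 0)

lemma quad_pt1 {m : ℕ} : quad (pt1 m) = 0 := by
  simp [quad, pt1]

lemma wre_pt1 {m : ℕ} : wre (pt1 m) (pt1 m) = 1 := by
  have h : 0 < 1 - s := one_sub_s_pos
  simp only [wre, pt1, re2, Complex.ofReal_re, Complex.ofReal_im, Complex.zero_re,
    Complex.zero_im, Pi.zero_apply, mul_zero, add_zero, zero_add, Finset.sum_const_zero]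
  rw [div_mul_div_comm, Real.mul_self_sqrt h.le]
  field_simp

lemma conjC_pt1 {m : ℕ} : conjC m (pt1 m) = pt1 m := by
  rw [conjC_apply]
  simp only [pt1]
  refine Prod.ext ?_ (Prod.ext ?_ ?_)
  · simp
  · simp
  · funext j; simp

lemma chord_of {z : V (n - 1)} {T : ℝ} (hT : 0 < T) (hz : defF z = 0)
    (hc : conjC (n - 1) z = z) (hfl : flow (-T) z = flow T z) :
    (quadricExample n hn).IsReebChord T (fun t => flow t z) where
  pos := hT
  mem := fun t _ => defF_flow hz t
  integral := fun t _ => ⟨reeb (flow t z), (isReebAt_iff hn (defF_flow hz t)).2 rfl,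
    (hasDerivAt_flow t z).hasDerivWithinAt⟩
  start_fixed := by
    change conjC (n - 1) (flow 0 z) = flow 0 z
    rw [flow_zero, hc]
  end_fixed := by
    change conjC (n - 1) (flow T z) = flow T z
    rw [conj_flow, hc, hfl]

lemma exp_pi {w : ℝ} (hw : 0 < w) : Complex.exp (Complex.I * (w : ℂ) * ((-(Real.pi / w) : ℝ) : ℂ))
    = Complex.exp (Complex.I * (w : ℂ) * ((Real.pi / w : ℝ) : ℂ)) := by
  have hwc : (w : ℂ) ≠ 0 := by exact_mod_cast hw.ne'
  rw [Complex.exp_eq_exp_iff_exists_int]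
  refine ⟨-1, ?_⟩
  push_cast
  field_simp
  ring

lemma pt0_mem : pt0 m ∈ C₀ m := by
  refine ⟨rfl, ?_⟩
  have := wre_pt0 (m := m)
  unfold wre at this
  simp only [pt0, re2, Complex.zero_re,
    Complex.zero_im, Pi.zero_apply, mul_zero, add_zero, Finset.sum_const_zero] at this
  rw [← re2_self]
  exact this

lemma pt1_mem {m : ℕ} : pt1 m ∈ C₁ m := by
  refine ⟨rfl, rfl, ?_⟩
  have := wre_pt1 (m := m)
  unfold wre at this
  simp only [pt1, re2, Complex.zero_re,
    Complex.zero_im, Pi.zero_apply, mul_zero, add_zero, zero_add, Finset.sum_const_zero] at this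
  rw [← re2_self]
  exact this

lemma C₀_mem : C₀ (n - 1) ∈ (quadricExample n hn).symmetricOrbits := by
  have hc : (quadricExample n hn).IsReebChord (Real.pi / (1 + s)) (fun t => flow t (pt0 (n - 1))) := by
    refine chord_of hn (div_pos Real.pi_pos one_add_s_pos) (defF_of quad_pt0 wre_pt0)
      conjC_pt0 ?_
    unfold flow
    refine Prod.ext ?_ (Prod.ext ?_ ?_)
    · simp only
      rw [exp_pi one_add_s_pos]
    · simp [pt0]
    · funext j
      simp [pt0]
  refine ⟨_, _, hc, ?_⟩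
  have himg := Set.image_congr (double_eq hn hc)
  rw [himg]
  simp only [flow_zero]
  refine (image_C₀ pt0_mem ?_).symm
  have := one_add_s_pos
  apply le_of_eq
  field_simp

lemma C₁_mem : C₁ (n - 1) ∈ (quadricExample n hn).symmetricOrbits := by
  have hc : (quadricExample n hn).IsReebChord (Real.pi / (1 - s)) (fun t => flow t (pt1 (n - 1))) := by
    refine chord_of hn (div_pos Real.pi_pos one_sub_s_pos) (defF_of quad_pt1 wre_pt1)
      conjC_pt1 ?_
    unfold flow
    refine Prod.ext ?_ (Prod.ext ?_ ?_)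
    · simp [pt1]
    · simp only
      rw [exp_pi one_sub_s_pos]
    · funext j
      simp [pt1]
  refine ⟨_, _, hc, ?_⟩
  have himg := Set.image_congr (double_eq hn hc)
  rw [himg]
  simp only [flow_zero]
  refine (image_C₁ pt1_mem ?_).symm
  have := one_sub_s_pos
  apply le_of_eq
  field_simp

lemma symmetricOrbits_eq : (quadricExample n hn).symmetricOrbits = {C₀ (n - 1), C₁ (n - 1)} := by
  apply Set.Subset.antisymm
  · rintro O ⟨T, c, hc, rfl⟩
    exact mem_pair hn hc
  · rintro O (rfl | rfl)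
    · exact C₀_mem hn
    · exact C₁_mem hn

lemma C₀_ne_C₁ {m : ℕ} : C₀ m ≠ C₁ m := by
  intro h
  have h1 : pt0 m ∈ C₁ m := h ▸ pt0_mem
  have h2 := pt0_mem (m := m)
  have h3 := h2.2
  rw [h1.1] at h3
  simp at h3

lemma encard_symmetricOrbits : (quadricExample n hn).symmetricOrbits.encard = 2 := by
  rw [symmetricOrbits_eq]
  exact Set.encard_pair C₀_ne_C₁

end chords

/-! ### Connectedness -/

/-- the punctured quadratic cone -/
def cone (m : ℕ) : Set (V m) := {z | z ≠ 0 ∧ quad z = 0}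

lemma joined_axis (m : ℕ) {p : ℂ} (hp : p ≠ 0) :
    JoinedIn (cone m) ((1 : ℂ), (0 : ℂ), (0 : Fin m → ℂ)) (p, 0, 0) := by
  have h1 : IsPathConnected ({0}ᶜ : Set ℂ) := by
    apply isPathConnected_compl_singleton_of_one_lt_rank
    rw [Complex.rank_real_complex]
    exact Nat.one_lt_ofNat
  have h2 := h1.joinedIn 1 (by simp) p (by simpa using hp)
  have hcont : Continuous (fun p : ℂ => ((p, 0, 0) : V m)) := by fun_prop
  have h3 := h2.map hcont
  refine h3.mono ?_
  rintro _ ⟨q, hq, rfl⟩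
  refine ⟨?_, ?_⟩
  · intro h
    exact hq (congrArg Prod.fst h)
  · simp [quad]

lemma joined_base (m : ℕ) {z : V m} (hz : quad z = 0) (h1 : z.1 ≠ 0) :
    JoinedIn (cone m) ((1 : ℂ), (0 : ℂ), (0 : Fin m → ℂ)) z := by
  refine (joined_axis m h1).trans ?_
  refine JoinedIn.ofLine (f := fun t : ℝ => ((z.1, (t : ℂ) ^ 2 * z.2.1,
    fun j => (t : ℂ) * z.2.2 j) : V m)) ?_ ?_ ?_ ?_
  · apply Continuous.continuousOn
    fun_prop
  · refine Prod.ext rfl (Prod.ext ?_ ?_)
    · simp
    · funext j; simp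
  · refine Prod.ext rfl (Prod.ext ?_ ?_)
    · simp
    · funext j; simp
  · rintro _ ⟨t, -, rfl⟩
    refine ⟨fun h => h1 (congrArg Prod.fst h), ?_⟩
    have : quad ((z.1, (t : ℂ) ^ 2 * z.2.1, fun j => (t : ℂ) * z.2.2 j) : V m) =
        (t : ℂ) ^ 2 * quad z := by
      unfold quad
      simp only [mul_pow]
      rw [← Finset.mul_sum]
      ring
    rw [this, hz, mul_zero]

lemma joined_all (m : ℕ) (hm : 0 < m) {z : V m} (hz : z ∈ cone m) :
    JoinedIn (cone m) ((1 : ℂ), (0 : ℂ), (0 : Fin m → ℂ)) z := by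
  by_cases h1 : z.1 = 0
  swap
  · exact joined_base m hz.2 h1
  have hsum : ∑ j, z.2.2 j ^ 2 = 0 := by
    have := hz.2
    unfold quad at this
    rw [h1, zero_mul, zero_add] at this
    exact this
  by_cases h2 : z.2.1 = 0
  · -- move the first coordinate
    have hzj : z.2.2 ≠ 0 := by
      intro h3
      exact hz.1 (Prod.ext h1 (Prod.ext h2 h3))
    have hj : JoinedIn (cone m) z (1, 0, z.2.2) := by
      refine JoinedIn.ofLine (f := fun t : ℝ => (((t : ℂ), 0, z.2.2) : V m)) ?_ ?_ ?_ ?_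
      · apply Continuous.continuousOn
        fun_prop
      · refine Prod.ext ?_ (Prod.ext ?_ rfl)
        · simp [h1]
        · simp [h2]
      · simp
      · rintro _ ⟨t, -, rfl⟩
        refine ⟨fun h => hzj (congrArg (fun z => z.2.2) h), ?_⟩
        unfold quad
        simp only
        rw [hsum]
        ring
    refine JoinedIn.trans (joined_base m ?_ ?_) hj.symm
    · unfold quad
      simp only
      rw [hsum]
      ring
    · simp
  · -- contract to the second axis, then move off it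
    have hj : JoinedIn (cone m) (0, z.2.1, 0) z := by
      refine JoinedIn.ofLine (f := fun t : ℝ => ((0, z.2.1,
        fun j => (t : ℂ) * z.2.2 j) : V m)) ?_ ?_ ?_ ?_
      · apply Continuous.continuousOn
        fun_prop
      · refine Prod.ext rfl (Prod.ext rfl ?_)
        funext j; simp
      · refine Prod.ext ?_ (Prod.ext rfl ?_)
        · simp [h1]
        · funext j; simp
      · rintro _ ⟨t, -, rfl⟩
        refine ⟨fun h => h2 (congrArg (fun z => z.2.1) h), ?_⟩
        unfold quad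
        simp only [mul_pow]
        rw [← Finset.mul_sum, hsum]
        ring
    obtain ⟨κ, hκ⟩ := IsAlgClosed.exists_pow_nat_eq (-z.2.1) (n := 2) (by norm_num)
    have hk : JoinedIn (cone m) (0, z.2.1, 0)
        (1, z.2.1, fun j => if j = ⟨0, hm⟩ then κ else 0) := by
      refine JoinedIn.ofLine (f := fun t : ℝ => (((t : ℂ) ^ 2, z.2.1,
        fun j => (t : ℂ) * (if j = ⟨0, hm⟩ then κ else 0)) : V m)) ?_ ?_ ?_ ?_
      · apply Continuous.continuousOn
        fun_prop
      · refine Prod.ext ?_ (Prod.ext rfl ?_)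
        · simp
        · funext j; simp
      · refine Prod.ext ?_ (Prod.ext rfl ?_)
        · simp
        · funext j; simp
      · rintro _ ⟨t, -, rfl⟩
        refine ⟨fun h => h2 (congrArg (fun z => z.2.1) h), ?_⟩
        unfold quad
        simp only [mul_pow]
        rw [← Finset.mul_sum]
        have : ∑ j : Fin m, (if j = ⟨0, hm⟩ then κ else 0) ^ 2 = κ ^ 2 := by
          rw [Finset.sum_eq_single ⟨0, hm⟩]
          · simp
          · intro b _ hb
            simp [hb]
          · simp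
        rw [this, hκ]
        ring
    refine JoinedIn.trans (JoinedIn.trans (joined_base m ?_ ?_) hk.symm) hj
    · unfold quad
      simp only
      have : ∑ j : Fin m, (if j = ⟨0, hm⟩ then κ else 0) ^ 2 = κ ^ 2 := by
        rw [Finset.sum_eq_single ⟨0, hm⟩]
        · simp
        · intro b _ hb
          simp [hb]
        · simp
      rw [this, hκ]
      ring
    · simp

lemma isPathConnected_cone (m : ℕ) (hm : 0 < m) : IsPathConnected (cone m) := by
  refine ⟨((1 : ℂ), (0 : ℂ), (0 : Fin m → ℂ)), ⟨?_, ?_⟩, fun {z} hz => joined_all m hm hz⟩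
  · intro h
    exact one_ne_zero (congrArg Prod.fst h)
  · simp [quad]

lemma wre_self_pos {m : ℕ} {z : V m} (hz : z ≠ 0) : 0 < wre z z := by
  have h1 := re2_self_nonneg z.1
  have h2 := re2_self_nonneg z.2.1
  have h3 : 0 ≤ ∑ j, re2 (z.2.2 j) (z.2.2 j) := Finset.sum_nonneg fun j _ => re2_self_nonneg _
  have hs1 := one_add_s_pos
  have hs2 := one_sub_s_pos
  have h1' : 0 ≤ (1 + s) * re2 z.1 z.1 := by positivity
  have h2' : 0 ≤ (1 - s) * re2 z.2.1 z.2.1 := by positivity
  have h0 : 0 ≤ wre z z := by unfold wre; linarith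
  rcases h0.lt_or_eq with h | h
  · exact h
  exfalso
  apply hz
  apply nrm_eq_zero
  unfold wre at h
  have e1 : (1 + s) * re2 z.1 z.1 = 0 := by linarith
  have e2 : (1 - s) * re2 z.2.1 z.2.1 = 0 := by linarith
  have e3 : ∑ j, re2 (z.2.2 j) (z.2.2 j) = 0 := by linarith
  have e1' := (mul_eq_zero.1 e1).resolve_left hs1.ne'
  have e2' := (mul_eq_zero.1 e2).resolve_left hs2.ne'
  unfold nrm
  rw [e1', e2', e3]
  ring

lemma quad_smul {m : ℕ} (r : ℝ) (z : V m) : quad (r • z) = (r : ℂ) ^ 2 * quad z := by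
  unfold quad
  have : ∑ j, (r • z).2.2 j ^ 2 = (r : ℂ) ^ 2 * ∑ j, z.2.2 j ^ 2 := by
    rw [Finset.mul_sum]
    refine Finset.sum_congr rfl fun j _ => ?_
    simp [mul_pow]
  rw [this]
  simp
  ring

lemma wre_smul_smul {m : ℕ} (r : ℝ) (z : V m) : wre (r • z) (r • z) = r ^ 2 * wre z z := by
  unfold wre
  have : ∑ j, re2 ((r • z).2.2 j) ((r • z).2.2 j) = r ^ 2 * ∑ j, re2 (z.2.2 j) (z.2.2 j) := by
    rw [Finset.mul_sum]
    refine Finset.sum_congr rfl fun j _ => ?_
    simp [re2]
    ring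
  rw [this]
  simp [re2]
  ring

lemma image_cone (m : ℕ) : (fun z : V m => (1 / √(wre z z)) • z) '' cone m =
    {z : V m | defF z = 0} := by
  apply Set.Subset.antisymm
  · rintro _ ⟨z, hz, rfl⟩
    have hpos := wre_self_pos hz.1
    refine defF_of ?_ ?_
    · rw [quad_smul, hz.2, mul_zero]
    · rw [wre_smul_smul, div_pow, one_pow, Real.sq_sqrt hpos.le]
      field_simp
  · intro z hz
    obtain ⟨hq, hw⟩ := defF_eq_zero hz
    refine ⟨z, ⟨?_, hq⟩, ?_⟩
    · rintro rfl
      simp [wre, re2] at hw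
    · simp [hw]

lemma isPathConnected_carrier (m : ℕ) (hm : 0 < m) : IsPathConnected {z : V m | defF z = 0} := by
  rw [← image_cone]
  refine (isPathConnected_cone m hm).image' ?_
  have hc : Continuous (fun z : V m => wre z z) := contDiff_wre.continuous
  refine ContinuousOn.smul (ContinuousOn.div continuousOn_const
    (Real.continuous_sqrt.comp hc).continuousOn ?_) continuousOn_id
  intro z hz
  exact (Real.sqrt_pos.2 (wre_self_pos hz.1)).ne'

/-- **Main result.** For every `n ≥ 3` there is a connected closed real contact manifold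
`(Σ, α, ρ)` of dimension `2 n - 1` (with nonempty fixed point set of the anti-contact involution)
which carries exactly two, hence at most `n - 1`, geometrically distinct symmetric periodic Reeb
orbits. -/
theorem result (n : ℕ) (hn : 3 ≤ n) :
    ∃ M : RealContactManifold n (ℂ × ℂ × (Fin (n - 1) → ℂ)) (ℂ × ℝ),
      IsPathConnected M.carrier ∧ M.symmetricOrbits.encard = 2 ∧
        M.symmetricOrbits.encard ≤ ((n - 1 : ℕ) : ℕ∞) := by
  refine ⟨quadricExample n (by omega), isPathConnected_carrier (n - 1) (by omega),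
    encard_symmetricOrbits _, ?_⟩
  rw [encard_symmetricOrbits]
  have : 2 ≤ n - 1 := by omega
  exact_mod_cast this

end

end Pool.Agent.Results.MP_8a71fe_gt.FewSymmetricOrbits
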